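import Pool.Agent.Lib.MP_c6cae0_co.Shatter

/-!
# Sumsets of dense sets and small subspaces of every Schubert position

For every basis of `F_2^n` and all nonempty sets `A_1, ..., A_k` there is a set `I` of indices with
`z^(k |I|)` at least the product of the densities (`z` the root of `z^k + 1 = 2 z` in `(0, 1)`, so
`z = (√5 - 1) / 2` for `k = 3`) such that `A_1 + ... + A_k + U` is everything for every subspace `U`
spanned by vectors `u_j`, `j ∈ I`, with `u_j ∈ b_j + span (b_l, l < j)`.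
-/

theorem Pool.Agent.Results.MP_c6cae0_co.SchubertCover.result :
    ∀ (k : ℕ) (z : ℝ), 0 < k → 0 < z → z < 1 → z ^ k + 1 = 2 * z →
      ∀ (n : ℕ) (b : Module.Basis (Fin n) (ZMod 2) (Fin n → ZMod 2))
        (A : Fin k → Finset (Fin n → ZMod 2)), (∀ i, (A i).Nonempty) →
        ∃ I : Finset (Fin n), ∏ i, ((A i).card : ℝ) / 2 ^ n ≤ z ^ (k * I.card) ∧
          ∀ u : Fin n → (Fin n → ZMod 2),
            (∀ j, u j - b j ∈ Submodule.span (ZMod 2) (b '' {l | l < j})) →
            ∀ v : Fin n → ZMod 2, ∃ a : Fin k → (Fin n → ZMod 2),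
              (∀ i, a i ∈ A i) ∧ v - ∑ i, a i ∈ Submodule.span (ZMod 2) (u '' I) :=
  fun _ _ hk hz0 hz1 hz n b A hA =>
    Pool.Agent.Lib.MP_c6cae0_co.basis_main hk hz0 hz1 hz n b A hA
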